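import Pool.Agent.Y462.AR.Tool
import Mathlib

set_option autoImplicit false

/-!
Project AR (helper462), part ACT (helper813): an integral representation of the Artin groups with
labels 2, 3, 4, 6.
-/

namespace Pool.Agent.Y813.AR

open Pool.Agent.Y462.AR

variable {V : Type} [Fintype V] [LinearOrder V] (M : V → V → ℕ)

/-- the linear form -/
def lf (s : V) (w : Option V → ℤ) : ℤ := w none + ∑ t, co M s t * w (some t)

theorem lf_add (s : V) (w w' : Option V → ℤ) : lf M s (w + w') = lf M s w + lf M s w' := by
  unfold lf
  simp only [Pi.add_apply, mul_add, Finset.sum_add_distrib]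
  ring

theorem lf_smul (s : V) (c : ℤ) (w : Option V → ℤ) : lf M s (c • w) = c * lf M s w := by
  unfold lf
  simp only [Pi.smul_apply, smul_eq_mul, mul_add, Finset.mul_sum]
  congr 1
  refine Finset.sum_congr rfl fun t _ => ?_
  ring

theorem lf_single (t s : V) (r : ℤ) : lf M t (Pi.single (some s) r) = co M t s * r := by
  unfold lf
  rw [Pi.single_eq_of_ne (by simp), zero_add, Finset.sum_eq_single s]
  · rw [Pi.single_eq_same]
  · intro b _ hb
    rw [Pi.single_eq_of_ne (by simpa using hb), mul_zero]
  · intro h
    exact absurd (Finset.mem_univ s) h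

theorem co_self (s : V) : co M s s = 0 := by
  simp [co]

theorem lf_neg (s : V) (w w' : Option V → ℤ) : lf M s (w - w') = lf M s w - lf M s w' := by
  unfold lf
  simp only [Pi.sub_apply, mul_sub, Finset.sum_sub_distrib]
  ring

/-- the generators act by these maps -/
def tv (s : V) : (Option V → ℤ) ≃ₗ[ℤ] (Option V → ℤ) where
  toFun w := w + Pi.single (some s) (lf M s w)
  map_add' w w' := by
    rw [lf_add, Pi.single_add]
    abel
  map_smul' c w := by
    rw [lf_smul, RingHom.id_apply, smul_add, ← smul_eq_mul, Pi.single_smul]
  invFun w := w - Pi.single (some s) (lf M s w)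
  left_inv w := by
    show w + Pi.single (some s) (lf M s w) -
      Pi.single (some s) (lf M s (w + Pi.single (some s) (lf M s w))) = w
    rw [lf_add, lf_single, co_self, zero_mul, add_zero]
    abel
  right_inv w := by
    show w - Pi.single (some s) (lf M s w) +
      Pi.single (some s) (lf M s (w - Pi.single (some s) (lf M s w))) = w
    rw [lf_neg, lf_single, co_self, zero_mul, sub_zero]
    abel

theorem tv_apply (s : V) (w : Option V → ℤ) :
    tv M s w = w + Pi.single (some s) (lf M s w) := rfl

/-- vectors changed in two coordinates -/
def pp (s t : V) (w : Option V → ℤ) (A B : ℤ) : Option V → ℤ :=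
  w + Pi.single (some s) A + Pi.single (some t) B

theorem step1 (s t : V) (w : Option V → ℤ) (A B : ℤ) :
    tv M s (pp s t w A B) = pp s t w (A + lf M s w + co M s t * B) B := by
  rw [tv_apply]
  unfold pp
  rw [lf_add, lf_add, lf_single, lf_single, co_self, zero_mul, add_zero,
    show A + lf M s w + co M s t * B = A + (lf M s w + co M s t * B) by ring]
  simp only [Pi.single_add]
  abel

theorem step2 (s t : V) (w : Option V → ℤ) (A B : ℤ) :
    tv M t (pp s t w A B) = pp s t w A (B + lf M t w + co M t s * A) := by
  rw [tv_apply]
  unfold pp
  rw [lf_add, lf_add, lf_single, lf_single, co_self, zero_mul, add_zero,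
    show B + lf M t w + co M t s * A = B + (lf M t w + co M t s * A) by ring]
  simp only [Pi.single_add]
  abel

theorem pp_zero (s t : V) (w : Option V → ℤ) : pp s t w 0 0 = w := by
  unfold pp
  simp

theorem co_two {s t : V} (h : M s t = 2) : co M s t = 0 := by
  simp [co, h, kap]

theorem co_mul {s t : V} (hst : s ≠ t) (hM : M s t = M t s) (h : M s t ≠ 2) :
    co M s t * co M t s = - kap (M s t) := by
  rcases lt_or_gt_of_ne hst with h1 | h1
  · have h2 : ¬ t < s := not_lt.2 h1.le
    simp only [co, if_neg hst, if_neg hst.symm, if_pos h1, if_neg h2, if_neg h, one_mul, ← hM]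
  · have h2 : ¬ s < t := not_lt.2 h1.le
    have h' : M t s ≠ 2 := hM ▸ h
    simp only [co, if_neg hst, if_neg hst.symm, if_pos h1, if_neg h2, if_neg h', mul_one]

theorem t_act : S_ACT := by
  intro V _ _ M hsym hlab
  refine (t_lift V ((Option V → ℤ) ≃ₗ[ℤ] (Option V → ℤ)) M (tv M) ?_).imp fun ρ hρ s w => ?_
  · intro s t hst
    rcases eq_or_ne s t with rfl | hne
    · rfl
    refine LinearEquiv.ext fun w => ?_
    rcases hlab s t hne with h | h | h | h | h
    · exact absurd h hst
    · have hu := co_two M h
      have hv := co_two M ((hsym t s).trans h)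
      rw [h]
      show tv M s (tv M t w) = tv M t (tv M s w)
      conv_lhs => rw [← pp_zero s t w]
      conv_rhs => rw [← pp_zero s t w]
      simp only [step1, step2, hu, hv]
      congr 1 <;> ring
    · have huv := co_mul M hne (hsym s t) (by rw [h]; norm_num)
      rw [h] at huv ⊢
      simp only [kap] at huv
      norm_num at huv
      show tv M s (tv M t (tv M s w)) = tv M t (tv M s (tv M t w))
      conv_lhs => rw [← pp_zero s t w]
      conv_rhs => rw [← pp_zero s t w]
      simp only [step1, step2]
      congr 1
      · linear_combination (lf M s w) * huv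
      · linear_combination -(lf M t w) * huv
    · have huv := co_mul M hne (hsym s t) (by rw [h]; norm_num)
      rw [h] at huv ⊢
      simp only [kap] at huv
      norm_num at huv
      show tv M s (tv M t (tv M s (tv M t w))) = tv M t (tv M s (tv M t (tv M s w)))
      conv_lhs => rw [← pp_zero s t w]
      conv_rhs => rw [← pp_zero s t w]
      simp only [step1, step2]
      generalize co M s t = u at *
      generalize co M t s = v at *
      generalize lf M s w = S
      generalize lf M t w = T
      congr 1
      · linear_combination (u * T) * huv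
      · linear_combination -(v * S) * huv
    · have huv := co_mul M hne (hsym s t) (by rw [h]; norm_num)
      rw [h] at huv ⊢
      simp only [kap] at huv
      norm_num at huv
      show tv M s (tv M t (tv M s (tv M t (tv M s (tv M t w))))) =
        tv M t (tv M s (tv M t (tv M s (tv M t (tv M s w)))))
      conv_lhs => rw [← pp_zero s t w]
      conv_rhs => rw [← pp_zero s t w]
      simp only [step1, step2]
      generalize co M s t = u at *
      generalize co M t s = v at *
      generalize lf M s w = S
      generalize lf M t w = T
      congr 1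
      · linear_combination (u * T * (u * v + 1)) * huv
      · linear_combination -(v * S * (u * v + 1)) * huv
  · rw [hρ]
    rfl

end Pool.Agent.Y813.AR
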